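import Pool.Agent.H.MP_52a6f5_lc.Red

namespace Pool.Agent.Results.MP_52a6f5_lc.Hard
open Pool.Agent.Lib.CX Pool.Agent.H.MP_52a6f5_lc

theorem result : NPHard fun I : {I : Inst // Valid I} => Load I.1 :=
  NPHard.of_nae (fun φ => ⟨red0 φ, red0_valid φ⟩) (red0_pt.subtype _) fun _ h => red0_iff h

end Pool.Agent.Results.MP_52a6f5_lc.Hard
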